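import Mathlib

/-!
# Definitions: Vojta's conjecture for the integral points on the stacky line with three stacky points
-/

set_option autoImplicit false

namespace Pool.Agent.L5helper92.SS

/-- the height `log max (|a|, b)` of a rational number `a / b` in lowest terms -/
noncomputable def ht (x : ℚ) : ℝ := Real.log (max (x.num.natAbs : ℝ) (x.den : ℝ))

/-- the truncated counting function of the divisor `0 + 1 + ∞` at `x = a / b`: the sum of `log q`
over the primes `q` not in `S` which divide `a b (b - a)` -/
noncomputable def N1 (S : Finset ℕ) (x : ℚ) : ℝ :=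
  ∑ q ∈ (x.num.natAbs * x.den * ((x.den : ℤ) - x.num).natAbs).primeFactors \ S, Real.log q

/-- the integral points, over the integers with the primes in `S` inverted, of the stacky line with
stacky points of order `a` at `0`, of order `b` at `1` and of order `c` at `∞`, outside of the stacky
points: the rational numbers `x ≠ 0, 1` such that for every prime `q` not in `S` the intersection
multiplicities at `q` with `0`, `1`, `∞` are divisible by `a`, `b`, `c` -/
def Pts (S : Finset ℕ) (a b c : ℕ) : Set ℚ :=
  {x | x ≠ 0 ∧ x ≠ 1 ∧ ∀ q : ℕ, q.Prime → q ∉ S →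
    a ∣ padicValInt q x.num ∧ b ∣ padicValInt q ((x.den : ℤ) - x.num) ∧ c ∣ padicValNat q x.den}

/-- Vojta's conjecture for the integral points of this stacky line, the divisor of the three stacky
points, and all ample line bundles `O(m)`: for all `δ > 0` the inequality
`N1 S x ≥ ht x - δ m ht x - C` holds with a constant `C` for the integral points outside of a finite
set -/
def Vojta (S : Finset ℕ) (a b c : ℕ) : Prop :=
  ∀ m : ℕ, 1 ≤ m → ∀ δ : ℝ, 0 < δ → ∃ (Z : Set ℚ) (C : ℝ), Z.Finite ∧
    ∀ x ∈ Pts S a b c, x ∉ Z → ht x - δ * (m * ht x) - C ≤ N1 S x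

/-- the abc conjecture of Masser and Oesterlé -/
def ABC : Prop :=
  ∀ ε : ℝ, 0 < ε → ∃ κ : ℝ, ∀ a b c : ℕ, 0 < a → 0 < b → Nat.Coprime a b → a + b = c →
    (c : ℝ) ≤ κ * ((∏ p ∈ (a * b * c).primeFactors, p : ℕ) : ℝ) ^ (1 + ε)

end Pool.Agent.L5helper92.SS
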