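import Mathlib
import Pool.Agent.L5helper92.TS.Belyi
import Pool.Agent.L5helper92.SS.Defs

/-!
# Belyi functions which factor over a stacky line with three stacky points
-/

set_option autoImplicit false

namespace Pool.Agent.L5helper92.SS

open Polynomial
open Pool.Agent.L5helper92.TS (Truncated Values belyi_iff truncated_of_abc abc_of_truncated
  northcott ht_nonneg N1_nonneg)

/-- a Belyi function `A / (A + B)` with the three rational cusps `0, 1, ∞` which factors over the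
stacky line with orders `a, b, c` -/
def Good (S : Finset ℕ) (a b c : ℕ) : Prop :=
  ∃ (d : ℕ) (A B g : ℤ[X]) (F G : ℤ → ℤ → ℤ),
    A.natDegree ≤ d ∧ B.natDegree ≤ d ∧ (A + B).natDegree ≤ d ∧
    (A.natDegree = d ∨ B.natDegree = d) ∧
    (∀ z : ℂ, aeval z A ≠ 0 ∨ aeval z B ≠ 0) ∧ g ≠ 0 ∧ g.natDegree + 1 ≤ d ∧
    A * B * (A + B) ≠ 0 ∧
    (∀ z : ℂ, aeval z (A * B * (A + B)) = 0 → z = 0 ∨ z = 1 ∨ aeval z g = 0) ∧
    (∀ s u : ℤ, u ≠ 0 → (F s u : ℚ) = (u : ℚ) ^ d * aeval ((s : ℚ) / u) A ∧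
      (G s u : ℚ) = (u : ℚ) ^ d * aeval ((s : ℚ) / u) B) ∧
    (∀ s u : ℤ, IsCoprime s u → ∀ r : ℕ, r.Prime → r ∉ S →
      ¬ ((r : ℤ) ∣ F s u ∧ (r : ℤ) ∣ G s u)) ∧
    (∀ s u : ℤ, F s u ≠ 0 → G s u ≠ 0 → F s u + G s u ≠ 0 → ∀ r : ℕ, r.Prime → r ∉ S →
      a ∣ padicValInt r (F s u) ∧ b ∣ padicValInt r (G s u) ∧
        c ∣ padicValInt r (F s u + G s u))

theorem padicValInt_neg (r : ℕ) (x : ℤ) : padicValInt r (-x) = padicValInt r x := by
  unfold padicValInt; rw [Int.natAbs_neg]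

theorem Good.swap {S : Finset ℕ} {a b c : ℕ} (h : Good S a b c) : Good S b a c := by
  obtain ⟨d, A, B, g, F, G, hA, hB, hAB, hd, hcop, hg, hgd, h0, hz, hF, hr, hv⟩ := h
  refine ⟨d, B, A, g, G, F, hB, hA, by rw [add_comm]; exact hAB, hd.symm, fun z => (hcop z).symm,
    hg, hgd, ?_, fun z h => hz z ?_, fun s u hu => ⟨(hF s u hu).2, (hF s u hu).1⟩,
    fun s u hsu r hr1 hr2 h => hr s u hsu r hr1 hr2 ⟨h.2, h.1⟩, fun s u h1 h2 h3 r hr1 hr2 => ?_⟩
  · rw [mul_comm B A, add_comm B A]; exact h0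
  · rw [mul_comm A B, add_comm A B]; exact h
  · have := hv s u h2 h1 (by rw [add_comm]; exact h3) r hr1 hr2
    exact ⟨this.2.1, this.1, by rw [add_comm]; exact this.2.2⟩

theorem Good.rot {S : Finset ℕ} {a b c : ℕ} (h : Good S a b c) : Good S b c a := by
  obtain ⟨d, A, B, g, F, G, hA, hB, hAB, hd, hcop, hg, hgd, h0, hz, hF, hr, hv⟩ := h
  have e0 : B * -(A + B) * (B + -(A + B)) = A * B * (A + B) := by ring
  refine ⟨d, B, -(A + B), g, G, fun s u => -(F s u + G s u), hB, by rw [natDegree_neg]; exact hAB,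
    ?_, ?_, fun z => ?_, hg, hgd, ?_, fun z h => hz z ?_, fun s u hu => ⟨(hF s u hu).2, ?_⟩,
    fun s u hsu r hr1 hr2 h => hr s u hsu r hr1 hr2 ⟨?_, h.1⟩, fun s u h1 h2 h3 r hr1 hr2 => ?_⟩
  · have : B + -(A + B) = -A := by ring
    rw [this, natDegree_neg]; exact hA
  · by_cases hBd : B.natDegree = d
    · exact Or.inl hBd
    · right
      have hAd : A.natDegree = d := hd.resolve_right hBd
      rw [natDegree_neg, natDegree_add_eq_left_of_natDegree_lt (by omega), hAd]
  · rcases hcop z with h | h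
    · by_cases hBz : aeval z B = 0
      · right
        rw [map_neg, map_add, hBz, add_zero]
        exact neg_ne_zero.2 h
      · exact Or.inl hBz
    · exact Or.inl h
  · rw [e0]; exact h0
  · rw [← e0]; exact h
  · push_cast
    rw [(hF s u hu).1, (hF s u hu).2, map_neg, map_add]
    ring
  · have h2 : (r : ℤ) ∣ F s u + G s u := (dvd_neg).1 h.2
    exact (dvd_add_left h.1).1 h2
  · have e1 : G s u + -(F s u + G s u) = -F s u := by ring
    have hF0 : F s u ≠ 0 := by
      intro h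
      apply h3
      show G s u + -(F s u + G s u) = 0
      rw [e1, h, neg_zero]
    have hFG : F s u + G s u ≠ 0 := fun h => h2 (by
      show -(F s u + G s u) = 0
      rw [h, neg_zero])
    have := hv s u hF0 h1 hFG r hr1 hr2
    show b ∣ padicValInt r (G s u) ∧ c ∣ padicValInt r (-(F s u + G s u)) ∧
      a ∣ padicValInt r (G s u + -(F s u + G s u))
    rw [e1, padicValInt_neg, padicValInt_neg]
    exact ⟨this.2.1, this.2.2, this.1⟩

/-- the values are integral points -/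
theorem mem_pts {S : Finset ℕ} {a b c : ℕ} (F G : ℤ) (hF : F ≠ 0) (hG : G ≠ 0)
    (hFG : F + G ≠ 0) (hr : ∀ r : ℕ, r.Prime → r ∉ S → ¬ ((r : ℤ) ∣ F ∧ (r : ℤ) ∣ G))
    (hv : ∀ r : ℕ, r.Prime → r ∉ S →
      a ∣ padicValInt r F ∧ b ∣ padicValInt r G ∧ c ∣ padicValInt r (F + G)) :
    (F : ℚ) / ((F : ℚ) + G) ∈ Pts S a b c := by
  have hFGq : (F : ℚ) + G ≠ 0 := by exact_mod_cast hFG
  set x : ℚ := (F : ℚ) / ((F : ℚ) + G) with hx
  have hxd : (x.den : ℤ) ≠ 0 := by exact_mod_cast x.pos.ne'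
  have hcross : x.num * (F + G) = F * x.den := by
    have h1 : (x.num : ℚ) / x.den = (F : ℚ) / ((F : ℚ) + G) := by
      rw [Rat.num_div_den]
    have hxd' : (x.den : ℚ) ≠ 0 := by exact_mod_cast x.pos.ne'
    rw [div_eq_div_iff hxd' hFGq] at h1
    exact_mod_cast h1
  have hxcop : IsCoprime (x.den : ℤ) x.num := by
    have := x.reduced
    exact (Int.isCoprime_iff_gcd_eq_one.2 (by simpa [Int.gcd] using this)).symm
  obtain ⟨m, hm⟩ : (x.den : ℤ) ∣ F + G := by
    refine hxcop.dvd_of_dvd_mul_left ?_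
    rw [hcross]
    exact dvd_mul_left _ _
  have hFm : F = x.num * m := by
    have h2 : F * x.den = (x.num * m) * x.den := by
      rw [← hcross, hm]; ring
    exact mul_right_cancel₀ hxd h2
  have hGm : G = ((x.den : ℤ) - x.num) * m := by
    have : G = (F + G) - F := by ring
    rw [this, hm]
    conv_lhs => rw [hFm]
    ring
  have hm0 : m ≠ 0 := by
    rintro rfl
    apply hF; rw [hFm, mul_zero]
  have hnum : x.num ≠ 0 := fun h => hF (by rw [hFm, h, zero_mul])
  have hdn : (x.den : ℤ) - x.num ≠ 0 := fun h => hG (by rw [hGm, h, zero_mul])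
  refine ⟨?_, ?_, fun r hr1 hr2 => ?_⟩
  · exact div_ne_zero (by exact_mod_cast hF) hFGq
  · intro he
    rw [hx, div_eq_one_iff_eq hFGq] at he
    apply hG
    have : (G : ℚ) = 0 := by linarith
    exact_mod_cast this
  · have : Fact r.Prime := ⟨hr1⟩
    have hrm : ¬ (r : ℤ) ∣ m := by
      intro h
      apply hr r hr1 hr2
      constructor
      · rw [hFm]; exact h.mul_left _
      · rw [hGm]; exact h.mul_left _
    have hvm : padicValInt r m = 0 := padicValInt.eq_zero_of_not_dvd hrm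
    have hv' := hv r hr1 hr2
    rw [hm] at hv'
    have e1 : padicValInt r F = padicValInt r x.num := by
      conv_lhs => rw [hFm]
      rw [padicValInt.mul hnum hm0, hvm, add_zero]
    have e2 : padicValInt r G = padicValInt r ((x.den : ℤ) - x.num) := by
      conv_lhs => rw [hGm]
      rw [padicValInt.mul hdn hm0, hvm, add_zero]
    have e3 : padicValInt r ((x.den : ℤ) * m) = padicValNat r x.den := by
      rw [padicValInt.mul hxd hm0, hvm, add_zero, padicValInt.of_nat]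
    rw [e1, e2, e3] at hv'
    exact hv'

theorem good_iff {S : Finset ℕ} {a b c : ℕ} (h : Good S a b c) :
    Truncated S (Pts S a b c) ↔ Truncated S Set.univ := by
  refine ⟨fun hT => ?_, fun hT => hT.mono (Set.subset_univ _)⟩
  obtain ⟨d, A, B, g, F, G, hA, hB, hAB, hd, hcop, hg, hgd, h0, hz, hF, hr, hv⟩ := h
  refine (belyi_iff S d A B g hA hB hd hcop hg hgd h0 hz).1 ?_
  intro ε hε C
  refine (hT ε hε C).subset ?_
  rintro x ⟨⟨t, hne, rfl⟩, hx0, hx1, hN⟩
  refine ⟨?_, hx0, hx1, hN⟩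
  have hden : (t.den : ℤ) ≠ 0 := by exact_mod_cast t.pos.ne'
  have ht : ((t.num : ℤ) : ℚ) / ((t.den : ℤ) : ℚ) = t := by
    push_cast; exact Rat.num_div_den t
  obtain ⟨h1, h2⟩ := hF t.num t.den hden
  rw [ht] at h1 h2
  have hdq : ((t.den : ℤ) : ℚ) ^ d ≠ 0 := pow_ne_zero _ (by exact_mod_cast hden)
  have hval : aeval t A / (aeval t A + aeval t B) =
      (F t.num t.den : ℚ) / ((F t.num t.den : ℚ) + G t.num t.den) := by
    rw [h1, h2, ← mul_add, mul_div_mul_left _ _ hdq]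
  have hFG : (F t.num t.den : ℚ) + G t.num t.den ≠ 0 := by
    rw [h1, h2, ← mul_add]; exact mul_ne_zero hdq hne
  have hFG' : F t.num t.den + G t.num t.den ≠ 0 := by exact_mod_cast hFG
  rw [hval] at hx0 hx1 ⊢
  have hF0 : F t.num t.den ≠ 0 := by
    intro h; apply hx0; rw [h]; simp
  have hG0 : G t.num t.den ≠ 0 := by
    intro h; apply hx1
    rw [h] at hFG ⊢
    simp only [Int.cast_zero, add_zero] at hFG ⊢
    exact div_self hFG
  have hcopt : IsCoprime t.num (t.den : ℤ) := by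
    exact Int.isCoprime_iff_gcd_eq_one.2 (by simpa [Int.gcd] using t.reduced)
  exact mem_pts _ _ hF0 hG0 hFG' (fun r hr1 hr2 => hr _ _ hcopt r hr1 hr2)
    (fun r hr1 hr2 => hv _ _ hF0 hG0 hFG' r hr1 hr2)

/-- the two forms of the inequality -/
theorem vojta_iff (S : Finset ℕ) (a b c : ℕ) :
    Vojta S a b c ↔ Truncated S (Pts S a b c) := by
  have e1 : ∀ x, Pool.Agent.L5helper92.TS.ht x = ht x := fun _ => rfl
  have e2 : ∀ x, Pool.Agent.L5helper92.TS.N1 S x = N1 S x := fun _ => rfl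
  constructor
  · intro h ε hε C
    obtain ⟨Z, C₀, hZ, hZ'⟩ := h 1 le_rfl (ε / 2) (by positivity)
    refine (hZ.union (northcott ((C₀ - C) / (ε / 2)))).subset ?_
    rintro x ⟨hx, -, -, hN⟩
    by_cases hxZ : x ∈ Z
    · exact Or.inl hxZ
    · right
      have h1 := hZ' x hx hxZ
      rw [Set.mem_ofPred_eq, le_div_iff₀ (by positivity)]
      rw [e1, e2] at hN
      rw [e1]
      push_cast at h1
      linarith
  · intro h m hm δ hδ
    refine ⟨{x : ℚ | x ∈ Pts S a b c ∧ x ≠ 0 ∧ x ≠ 1 ∧ Pool.Agent.L5helper92.TS.N1 S x <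
      Pool.Agent.L5helper92.TS.ht x - δ * Pool.Agent.L5helper92.TS.ht x - 0}, 0, h δ hδ 0,
      fun x hx hxZ => ?_⟩
    rw [Set.mem_ofPred_eq] at hxZ
    have h1 : ¬ (Pool.Agent.L5helper92.TS.N1 S x <
        Pool.Agent.L5helper92.TS.ht x - δ * Pool.Agent.L5helper92.TS.ht x - 0) :=
      fun h2 => hxZ ⟨hx, hx.1, hx.2.1, h2⟩
    rw [e1, e2, not_lt] at h1
    have h3 := ht_nonneg x
    rw [e1] at h3
    have h4 : (1 : ℝ) ≤ m := by exact_mod_cast hm
    have h5 : δ * ht x ≤ δ * (m * ht x) := by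
      apply mul_le_mul_of_nonneg_left _ hδ.le
      nlinarith
    linarith

/-- all points and the abc conjecture -/
theorem univ_iff (S : Finset ℕ) : Truncated S Set.univ ↔ ABC := by
  constructor
  · intro h
    have h1 : Pool.Agent.N746.Self.ABC fun _ _ _ => True := by
      refine abc_of_truncated S Set.univ _ ?_ h
      intro a b c ha hb hab habc _
      have h2 := Pool.Agent.L5helper92.TS.point_of_triple a b c ha hb hab habc (a : ℤ) (b : ℤ) 1
        one_pos (by
          rw [one_mul, one_mul, one_mul, Int.natAbs_natCast, Int.natAbs_natCast]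
          have : ((a : ℤ) + b).natAbs = c := by omega
          rw [this])
      exact ⟨_, Set.mem_univ _, h2⟩
    intro ε hε
    obtain ⟨κ, hκ⟩ := h1 ε hε
    exact ⟨κ, fun a b c ha hb hab habc => hκ a b c ha hb hab habc trivial⟩
  · intro h
    refine truncated_of_abc S ?_
    intro ε hε
    obtain ⟨κ, hκ⟩ := h ε hε
    exact ⟨κ, fun a b c ha hb hab habc _ => hκ a b c ha hb hab habc⟩

theorem good_abc {S : Finset ℕ} {a b c : ℕ} (h : Good S a b c) : Vojta S a b c ↔ ABC := by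
  rw [vojta_iff, good_iff h, univ_iff]

end Pool.Agent.L5helper92.SS
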