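import Mathlib
import Pool.Agent.L5helper92.SS.Good

/-!
# The spherical cases: cyclic, dihedral, tetrahedral and octahedral
-/

set_option autoImplicit false

namespace Pool.Agent.L5helper92.SS

open Polynomial Finset

theorem val_pow (r k : ℕ) [Fact r.Prime] (x : ℤ) (hx : x ≠ 0) :
    padicValInt r (x ^ k) = k * padicValInt r x := by
  unfold padicValInt
  rw [Int.natAbs_pow, padicValNat.pow]

theorem dvd_val_pow (r k : ℕ) (hr : r.Prime) (x : ℤ) (hx : x ^ k ≠ 0) :
    k ∣ padicValInt r (x ^ k) := by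
  have : Fact r.Prime := ⟨hr⟩
  rcases Nat.eq_zero_or_pos k with rfl | hk
  · simp
  · have hx0 : x ≠ 0 := by
      rintro rfl; exact hx (zero_pow hk.ne')
    rw [val_pow r k x hx0]
    exact dvd_mul_right _ _

theorem dvd_val_mul_pow (r k : ℕ) (hr : r.Prime) (c x : ℤ) (hc : ¬ (r : ℤ) ∣ c)
    (hx : c * x ^ k ≠ 0) : k ∣ padicValInt r (c * x ^ k) := by
  have : Fact r.Prime := ⟨hr⟩
  rw [padicValInt.mul (left_ne_zero_of_mul hx) (right_ne_zero_of_mul hx),
    padicValInt.eq_zero_of_not_dvd hc, zero_add]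
  exact dvd_val_pow r k hr x (right_ne_zero_of_mul hx)

theorem not_dvd_of_coprime {r : ℕ} (hr : r.Prime) {s u : ℤ} (h : IsCoprime s u)
    (h1 : (r : ℤ) ∣ s) (h2 : (r : ℤ) ∣ u) : False := by
  have := h.isUnit_of_dvd' h1 h2
  rw [Int.isUnit_iff] at this
  have := hr.two_le
  omega

theorem eq_of_dvd {r : ℕ} (hr : r.Prime) (ps : Multiset ℕ) (hps : ∀ p ∈ ps, p.Prime) {n : ℕ}
    (hn : ps.prod = n) (h : (r : ℤ) ∣ (n : ℤ)) : r ∈ ps := by
  have h1 : r ∣ ps.prod := by rw [hn]; exact_mod_cast h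
  obtain ⟨p, hp, hrp⟩ := hr.prime.exists_mem_multiset_dvd h1
  rwa [(Nat.prime_dvd_prime_iff_eq hr (hps p hp)).1 hrp]

/-- **Cyclic case.** -/
theorem good_cyclic (S : Finset ℕ) (b c : ℕ) (hb : 1 ≤ b) (hc : 1 ≤ c) : Good S 1 b c := by
  set n : ℕ := b * c with hn
  have hn1 : 1 ≤ n := Nat.mul_pos hb hc
  set g : ℤ[X] := ∑ i ∈ range n, X ^ i with hg
  have hgm : g * (X - 1) = X ^ n - 1 := geom_sum_mul _ _
  have hX1 : (X - 1 : ℤ[X]) ≠ 0 := X_sub_C_ne_zero 1
  have hXn : (X ^ n - 1 : ℤ[X]) ≠ 0 := X_pow_sub_C_ne_zero hn1 1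
  have hg0 : g ≠ 0 := by
    intro h; rw [h, zero_mul] at hgm; exact hXn hgm.symm
  have hgd : g.natDegree + 1 = n := by
    have h1 := congrArg natDegree hgm
    rw [natDegree_mul hg0 hX1] at h1
    have h2 : (X - 1 : ℤ[X]).natDegree = 1 := natDegree_X_sub_C 1
    have h3 : (X ^ n - 1 : ℤ[X]).natDegree = n := natDegree_X_pow_sub_C (r := (1 : ℤ))
    rw [h2, h3] at h1
    exact h1
  have hAB : (1 - X ^ n : ℤ[X]) + X ^ n = 1 := by ring
  refine ⟨n, 1 - X ^ n, X ^ n, g, fun s u => u ^ n - s ^ n, fun s _ => s ^ n, ?_, ?_, ?_, ?_, ?_,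
    hg0, by rw [hgd], ?_, ?_, ?_, ?_, ?_⟩
  · refine (natDegree_sub_le _ _).trans (max_le ?_ ?_)
    · simp
    · exact natDegree_X_pow_le n
  · exact natDegree_X_pow_le n
  · rw [hAB]; simp
  · right; exact natDegree_X_pow n
  · intro z
    by_contra hcon
    push Not at hcon
    obtain ⟨h1, h2⟩ := hcon
    simp only [map_sub, map_one, map_pow, aeval_X] at h1 h2
    rw [h2] at h1
    norm_num at h1
  · rw [hAB, mul_one]
    apply mul_ne_zero
    · intro h
      apply hXn
      rw [← neg_sub, h, neg_zero]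
    · exact pow_ne_zero _ X_ne_zero
  · intro z hz
    rw [hAB, mul_one, map_mul] at hz
    simp only [map_sub, map_one, map_pow, aeval_X] at hz
    rcases mul_eq_zero.1 hz with h | h
    · have h1 : aeval z g * (z - 1) = 0 := by
        have := congrArg (aeval z) hgm
        simp only [map_mul, map_sub, map_one, map_pow, aeval_X] at this
        rw [this]; linear_combination -h
      rcases mul_eq_zero.1 h1 with h2 | h2
      · exact Or.inr (Or.inr h2)
      · exact Or.inr (Or.inl (by linear_combination h2))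
    · exact Or.inl (pow_eq_zero_iff (by omega) |>.1 h)
  · intro s u hu
    have huq : (u : ℚ) ≠ 0 := by exact_mod_cast hu
    constructor
    · simp only [map_sub, map_one, map_pow, aeval_X]
      push_cast
      rw [div_pow]
      field_simp
    · simp only [map_pow, aeval_X]
      push_cast
      rw [div_pow]
      field_simp
  · rintro s u hsu r hr - ⟨h1, h2⟩
    have hrp : Prime (r : ℤ) := Nat.prime_iff_prime_int.1 hr
    have h3 : (r : ℤ) ∣ u ^ n := by
      have : u ^ n = (u ^ n - s ^ n) + s ^ n := by ring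
      rw [this]; exact dvd_add h1 h2
    exact not_dvd_of_coprime hr hsu (hrp.dvd_of_dvd_pow h2) (hrp.dvd_of_dvd_pow h3)
  · intro s u h1 h2 h3 r hr _
    have e : u ^ n - s ^ n + s ^ n = u ^ n := by ring
    simp only [e] at h3 ⊢
    refine ⟨one_dvd _, (Dvd.intro c rfl).trans (dvd_val_pow r n hr s h2),
      (Dvd.intro_left b rfl).trans (dvd_val_pow r n hr u h3)⟩

/-- **Dihedral case.** -/
theorem good_dihedral (S : Finset ℕ) (n : ℕ) (hn1 : 1 ≤ n) (hS : 2 ∈ S) : Good S 2 2 n := by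
  set g₁ : ℤ[X] := ∑ i ∈ range n, X ^ i with hg₁
  have hgm : g₁ * (X - 1) = X ^ n - 1 := geom_sum_mul _ _
  have hX1 : (X - 1 : ℤ[X]) ≠ 0 := X_sub_C_ne_zero 1
  have hXn : (X ^ n - 1 : ℤ[X]) ≠ 0 := X_pow_sub_C_ne_zero hn1 1
  have hXn' : (X ^ n + 1 : ℤ[X]) ≠ 0 := X_pow_add_C_ne_zero hn1 1
  have hg0 : g₁ ≠ 0 := by
    intro h; rw [h, zero_mul] at hgm; exact hXn hgm.symm
  have hgd : g₁.natDegree + 1 = n := by
    have h1 := congrArg natDegree hgm
    rw [natDegree_mul hg0 hX1] at h1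
    have h2 : (X - 1 : ℤ[X]).natDegree = 1 := natDegree_X_sub_C 1
    have h3 : (X ^ n - 1 : ℤ[X]).natDegree = n := natDegree_X_pow_sub_C (r := (1 : ℤ))
    rw [h2, h3] at h1
    exact h1
  have hdm : (X ^ n - 1 : ℤ[X]).natDegree = n := natDegree_X_pow_sub_C (r := (1 : ℤ))
  have hdp : (X ^ n + 1 : ℤ[X]).natDegree = n := natDegree_X_pow_add_C (r := (1 : ℤ))
  have hAB : (X ^ n + 1 : ℤ[X]) ^ 2 + -(X ^ n - 1) ^ 2 = 4 * X ^ n := by ring
  refine ⟨2 * n, (X ^ n + 1) ^ 2, -(X ^ n - 1) ^ 2, g₁ * (X ^ n + 1),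
    fun s u => (s ^ n + u ^ n) ^ 2, fun s u => -(s ^ n - u ^ n) ^ 2, ?_, ?_, ?_, ?_, ?_,
    mul_ne_zero hg0 hXn', ?_, ?_, ?_, ?_, ?_, ?_⟩
  · rw [natDegree_pow, hdp]
  · rw [natDegree_neg, natDegree_pow, hdm]
  · rw [hAB]
    refine natDegree_mul_le.trans ?_
    have h1 : (4 : ℤ[X]).natDegree = 0 := natDegree_ofNat 4
    rw [h1, natDegree_X_pow]
    omega
  · left; rw [natDegree_pow, hdp]
  · intro z
    by_contra hcon
    push Not at hcon
    obtain ⟨h1, h2⟩ := hcon
    simp only [map_add, map_sub, map_neg, map_one, map_pow, aeval_X] at h1 h2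
    rw [neg_eq_zero] at h2
    have h1' := pow_eq_zero_iff (two_ne_zero) |>.1 h1
    have h2' := pow_eq_zero_iff (two_ne_zero) |>.1 h2
    have : (2 : ℂ) = 0 := by linear_combination h1' - h2'
    norm_num at this
  · rw [natDegree_mul hg0 hXn', hdp]
    omega
  · rw [hAB]
    refine mul_ne_zero (mul_ne_zero (pow_ne_zero _ hXn') (neg_ne_zero.2 (pow_ne_zero _ hXn)))
      (mul_ne_zero (by norm_num) (pow_ne_zero _ X_ne_zero))
  · intro z hz
    rw [hAB] at hz
    simp only [map_mul, map_add, map_sub, map_neg, map_one, map_pow, aeval_X, map_ofNat] at hz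
    have hz' : (z ^ n + 1) ^ 2 * (z ^ n - 1) ^ 2 * (4 * z ^ n) = 0 := by linear_combination -hz
    rw [map_mul]
    simp only [map_add, map_one, map_pow, aeval_X]
    rcases mul_eq_zero.1 hz' with h | h
    · rcases mul_eq_zero.1 h with h | h
      · right; right
        rw [pow_eq_zero_iff two_ne_zero] at h
        rw [h, mul_zero]
      · rw [pow_eq_zero_iff two_ne_zero] at h
        have h1 : aeval z g₁ * (z - 1) = 0 := by
          have := congrArg (aeval z) hgm
          simp only [map_mul, map_sub, map_one, map_pow, aeval_X] at this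
          rw [this]; exact h
        rcases mul_eq_zero.1 h1 with h2 | h2
        · right; right; rw [h2, zero_mul]
        · exact Or.inr (Or.inl (by linear_combination h2))
    · left
      rcases mul_eq_zero.1 h with h | h
      · norm_num at h
      · exact pow_eq_zero_iff (by omega) |>.1 h
  · intro s u hu
    have huq : (u : ℚ) ≠ 0 := by exact_mod_cast hu
    have e : (u : ℚ) ^ (2 * n) = (u ^ n) ^ 2 := by rw [mul_comm, pow_mul]
    constructor
    · simp only [map_add, map_one, map_pow, aeval_X]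
      push_cast
      rw [e, ← mul_pow, div_pow]
      congr 1
      field_simp
    · simp only [map_sub, map_neg, map_one, map_pow, aeval_X]
      push_cast
      rw [e, mul_neg, ← mul_pow, div_pow]
      congr 2
      field_simp
  · rintro s u hsu r hr hrS ⟨h1, h2⟩
    have hrp : Prime (r : ℤ) := Nat.prime_iff_prime_int.1 hr
    have h1' := hrp.dvd_of_dvd_pow h1
    have h2' := hrp.dvd_of_dvd_pow ((dvd_neg).1 h2)
    have h2r : ¬ (r : ℤ) ∣ 2 := by
      intro h
      have := eq_of_dvd hr {2} (by simp [Nat.prime_two]) (n := 2) (by simp) (by exact_mod_cast h)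
      rw [Multiset.mem_singleton] at this
      exact hrS (this ▸ hS)
    have h3 : (r : ℤ) ∣ 2 * s ^ n := by
      have : 2 * s ^ n = (s ^ n + u ^ n) + (s ^ n - u ^ n) := by ring
      rw [this]; exact dvd_add h1' h2'
    have h4 : (r : ℤ) ∣ 2 * u ^ n := by
      have : 2 * u ^ n = (s ^ n + u ^ n) - (s ^ n - u ^ n) := by ring
      rw [this]; exact dvd_sub h1' h2'
    exact not_dvd_of_coprime hr hsu (hrp.dvd_of_dvd_pow ((hrp.dvd_mul.1 h3).resolve_left h2r))
      (hrp.dvd_of_dvd_pow ((hrp.dvd_mul.1 h4).resolve_left h2r))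
  · intro s u h1 h2 h3 r hr hrS
    have e : (s ^ n + u ^ n) ^ 2 + -(s ^ n - u ^ n) ^ 2 = 4 * (s * u) ^ n := by
      rw [mul_pow]; ring
    simp only [e] at h3 ⊢
    have h4r : ¬ (r : ℤ) ∣ 4 := by
      intro h
      have := eq_of_dvd hr {2, 2} (by simp [Nat.prime_two]) (n := 4) (by simp) (by exact_mod_cast h)
      simp only [Multiset.insert_eq_cons, Multiset.mem_cons, Multiset.mem_singleton, or_self] at this
      exact hrS (this ▸ hS)
    refine ⟨dvd_val_pow r 2 hr _ h1, ?_, dvd_val_mul_pow r n hr _ _ h4r h3⟩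
    rw [padicValInt_neg]
    exact dvd_val_pow r 2 hr _ (neg_ne_zero.1 h2)

/-- **Tetrahedral case.** -/
theorem good_tetrahedral (S : Finset ℕ) (hS2 : 2 ∈ S) (hS3 : 3 ∈ S) : Good S 2 3 3 := by
  have hAB : (X ^ 6 - 20 * X ^ 3 - 8 : ℤ[X]) ^ 2 + -(X * (X ^ 3 + 8)) ^ 3 =
      (4 * (1 - X ^ 3)) ^ 3 := by ring
  have hne : ∀ f : ℤ[X], f.eval 2 ≠ 0 → f ≠ 0 := by
    rintro f h rfl; exact h (by simp)
  refine ⟨12, (X ^ 6 - 20 * X ^ 3 - 8) ^ 2, -(X * (X ^ 3 + 8)) ^ 3,
    (X ^ 3 + 8) * (X ^ 2 + X + 1) * (X ^ 6 - 20 * X ^ 3 - 8),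
    fun s u => (s ^ 6 - 20 * s ^ 3 * u ^ 3 - 8 * u ^ 6) ^ 2,
    fun s u => -(s * (s ^ 3 + 8 * u ^ 3)) ^ 3, ?_, ?_, ?_, ?_, ?_, ?_, ?_, ?_, ?_, ?_, ?_, ?_⟩
  · compute_degree!
  · compute_degree!
  · rw [hAB]; compute_degree!
  · left
    have : (X ^ 6 - 20 * X ^ 3 - 8 : ℤ[X]).natDegree = 6 := by compute_degree!
    rw [natDegree_pow, this]
  · intro z
    by_contra hcon
    push Not at hcon
    obtain ⟨h1, h2⟩ := hcon
    simp only [map_add, map_sub, map_mul, map_neg, map_one, map_pow, aeval_X, map_ofNat] at h1 h2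
    rw [neg_eq_zero, pow_eq_zero_iff (by norm_num)] at h2
    rw [pow_eq_zero_iff (by norm_num)] at h1
    rcases mul_eq_zero.1 h2 with h | h
    · rw [h] at h1; norm_num at h1
    · have h3 : z ^ 3 = -8 := by linear_combination h
      have h6 : z ^ 6 = (z ^ 3) ^ 2 := by ring
      rw [h6, h3] at h1; norm_num at h1
  · apply hne
    simp only [eval_mul, eval_add, eval_sub, eval_pow, eval_X, eval_one, eval_ofNat]
    norm_num
  · have : ((X ^ 3 + 8) * (X ^ 2 + X + 1) * (X ^ 6 - 20 * X ^ 3 - 8) : ℤ[X]).natDegree ≤ 11 := by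
      compute_degree!
    omega
  · rw [hAB]
    apply hne
    simp only [eval_mul, eval_add, eval_sub, eval_neg, eval_pow, eval_X, eval_one, eval_ofNat]
    norm_num
  · intro z hz
    rw [hAB] at hz
    simp only [map_mul, map_add, map_sub, map_neg, map_one, map_pow, aeval_X, map_ofNat] at hz ⊢
    rw [mul_neg, neg_mul, neg_eq_zero, mul_eq_zero, mul_eq_zero, pow_eq_zero_iff (by norm_num),
      pow_eq_zero_iff (by norm_num), pow_eq_zero_iff (by norm_num)] at hz
    rcases hz with (h | h) | h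
    · right; right; rw [h, mul_zero]
    · rcases mul_eq_zero.1 h with h | h
      · exact Or.inl h
      · right; right; rw [h]; ring
    · rcases mul_eq_zero.1 h with h | h
      · norm_num at h
      · have h1 : (z - 1) * (z ^ 2 + z + 1) = 0 := by linear_combination -h
        rcases mul_eq_zero.1 h1 with h | h
        · right; left; linear_combination h
        · right; right; rw [h]; ring
  · intro s u hu
    have huq : (u : ℚ) ≠ 0 := by exact_mod_cast hu
    constructor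
    · simp only [map_add, map_sub, map_mul, map_neg, map_one, map_pow, aeval_X, map_ofNat]
      push_cast
      field_simp
    · simp only [map_add, map_sub, map_mul, map_neg, map_one, map_pow, aeval_X, map_ofNat]
      push_cast
      field_simp
  · rintro s u hsu r hr hrS ⟨h1, h2⟩
    have hrp : Prime (r : ℤ) := Nat.prime_iff_prime_int.1 hr
    have h1' := hrp.dvd_of_dvd_pow h1
    have h2' := hrp.dvd_of_dvd_pow ((dvd_neg).1 h2)
    have h2r : ¬ (r : ℤ) ∣ 2 := by
      intro h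
      have := eq_of_dvd hr {2} (by simp [Nat.prime_two]) (n := 2) (by simp) (by exact_mod_cast h)
      rw [Multiset.mem_singleton] at this
      exact hrS (this ▸ hS2)
    have h3r : ¬ (r : ℤ) ∣ 3 := by
      intro h
      have := eq_of_dvd hr {3} (by simp [Nat.prime_three]) (n := 3) (by simp) (by exact_mod_cast h)
      rw [Multiset.mem_singleton] at this
      exact hrS (this ▸ hS3)
    have key : (r : ℤ) ∣ 216 * u ^ 6 → (r : ℤ) ∣ u := by
      intro h
      have e : (216 : ℤ) = 2 ^ 3 * 3 ^ 3 := by norm_num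
      rw [e] at h
      rcases hrp.dvd_mul.1 h with h | h
      · exfalso
        rcases hrp.dvd_mul.1 h with h | h
        · exact h2r (hrp.dvd_of_dvd_pow h)
        · exact h3r (hrp.dvd_of_dvd_pow h)
      · exact hrp.dvd_of_dvd_pow h
    rcases hrp.dvd_mul.1 h2' with h | h
    · have h8 : (r : ℤ) ∣ 8 * u ^ 6 := by
        have : 8 * u ^ 6 = s * (s ^ 5 - 20 * s ^ 2 * u ^ 3) -
            (s ^ 6 - 20 * s ^ 3 * u ^ 3 - 8 * u ^ 6) := by ring
        rw [this]; exact dvd_sub (h.mul_right _) h1'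
      have hu : (r : ℤ) ∣ u := key (by
        have : (216 : ℤ) * u ^ 6 = 27 * (8 * u ^ 6) := by ring
        rw [this]; exact h8.mul_left _)
      exact not_dvd_of_coprime hr hsu h hu
    · have h8 : (r : ℤ) ∣ 216 * u ^ 6 := by
        have : 216 * u ^ 6 = (s ^ 6 - 20 * s ^ 3 * u ^ 3 - 8 * u ^ 6) -
            (s ^ 3 + 8 * u ^ 3) * (s ^ 3 - 28 * u ^ 3) := by ring
        rw [this]; exact dvd_sub h1' (h.mul_right _)
      have hu := key h8
      have hs : (r : ℤ) ∣ s := by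
        have h9 : (r : ℤ) ∣ s ^ 3 := by
          have : s ^ 3 = (s ^ 3 + 8 * u ^ 3) - u * (8 * u ^ 2) := by ring
          rw [this]; exact dvd_sub h (hu.mul_right _)
        exact hrp.dvd_of_dvd_pow h9
      exact not_dvd_of_coprime hr hsu hs hu
  · intro s u h1 h2 h3 r hr hrS
    have e : (s ^ 6 - 20 * s ^ 3 * u ^ 3 - 8 * u ^ 6) ^ 2 + -(s * (s ^ 3 + 8 * u ^ 3)) ^ 3 =
        (4 * u * (u ^ 3 - s ^ 3)) ^ 3 := by ring
    simp only [e] at h3 ⊢
    refine ⟨dvd_val_pow r 2 hr _ h1, ?_, dvd_val_pow r 3 hr _ h3⟩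
    rw [padicValInt_neg]
    exact dvd_val_pow r 3 hr _ (neg_ne_zero.1 h2)

/-- **Octahedral case.** -/
theorem good_octahedral (S : Finset ℕ) (hS2 : 2 ∈ S) (hS3 : 3 ∈ S) : Good S 2 3 4 := by
  have hAB : (X ^ 12 - 33 * X ^ 8 - 33 * X ^ 4 + 1 : ℤ[X]) ^ 2 +
      -(X ^ 8 + 14 * X ^ 4 + 1) ^ 3 = -(108 * (X * (X ^ 4 - 1)) ^ 4) := by ring
  have hne : ∀ f : ℤ[X], f.eval 2 ≠ 0 → f ≠ 0 := by
    rintro f h rfl; exact h (by simp)
  refine ⟨24, (X ^ 12 - 33 * X ^ 8 - 33 * X ^ 4 + 1) ^ 2, -(X ^ 8 + 14 * X ^ 4 + 1) ^ 3,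
    (X + 1) * (X ^ 2 + 1) * (X ^ 12 - 33 * X ^ 8 - 33 * X ^ 4 + 1) * (X ^ 8 + 14 * X ^ 4 + 1),
    fun s u => (s ^ 12 - 33 * s ^ 8 * u ^ 4 - 33 * s ^ 4 * u ^ 8 + u ^ 12) ^ 2,
    fun s u => -(s ^ 8 + 14 * s ^ 4 * u ^ 4 + u ^ 8) ^ 3, ?_, ?_, ?_, ?_, ?_, ?_, ?_, ?_, ?_, ?_,
    ?_, ?_⟩
  · compute_degree!
  · compute_degree!
  · rw [hAB]; compute_degree!
  · left
    have : (X ^ 12 - 33 * X ^ 8 - 33 * X ^ 4 + 1 : ℤ[X]).natDegree = 12 := by compute_degree!
    rw [natDegree_pow, this]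
  · intro z
    by_contra hcon
    push Not at hcon
    obtain ⟨h1, h2⟩ := hcon
    have h5 := congrArg (aeval z) hAB
    simp only [map_add, map_sub, map_mul, map_neg, map_one, map_pow, aeval_X, map_ofNat]
      at h1 h2 h5
    rw [h1, h2, add_zero, zero_eq_neg, mul_eq_zero, pow_eq_zero_iff (by norm_num),
      mul_eq_zero] at h5
    rw [neg_eq_zero, pow_eq_zero_iff (by norm_num)] at h2
    rcases h5 with h | h | h
    · norm_num at h
    · rw [h] at h2; norm_num at h2
    · have h4 : z ^ 4 = 1 := by linear_combination h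
      have h8 : z ^ 8 = (z ^ 4) ^ 2 := by ring
      rw [h8, h4] at h2; norm_num at h2
  · apply hne
    simp only [eval_mul, eval_add, eval_sub, eval_pow, eval_X, eval_one, eval_ofNat]
    norm_num
  · have : ((X + 1) * (X ^ 2 + 1) * (X ^ 12 - 33 * X ^ 8 - 33 * X ^ 4 + 1) *
        (X ^ 8 + 14 * X ^ 4 + 1) : ℤ[X]).natDegree ≤ 23 := by
      compute_degree!
    omega
  · rw [hAB]
    apply hne
    simp only [eval_mul, eval_add, eval_sub, eval_neg, eval_pow, eval_X, eval_one, eval_ofNat]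
    norm_num
  · intro z hz
    rw [hAB] at hz
    simp only [map_mul, map_add, map_sub, map_neg, map_one, map_pow, aeval_X, map_ofNat] at hz ⊢
    rw [mul_neg, mul_neg, neg_mul, neg_neg, mul_eq_zero, mul_eq_zero, mul_eq_zero,
      pow_eq_zero_iff (by norm_num), pow_eq_zero_iff (by norm_num),
      pow_eq_zero_iff (by norm_num), mul_eq_zero] at hz
    rcases hz with (h | h) | h | h | h
    · right; right; rw [h]; ring
    · right; right; rw [h]; ring
    · norm_num at h
    · exact Or.inl h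
    · have h1 : (z - 1) * ((z + 1) * (z ^ 2 + 1)) = 0 := by linear_combination h
      rcases mul_eq_zero.1 h1 with h | h
      · right; left; linear_combination h
      · right; right; rw [h]; ring
  · intro s u hu
    have huq : (u : ℚ) ≠ 0 := by exact_mod_cast hu
    constructor
    · simp only [map_add, map_sub, map_mul, map_neg, map_one, map_pow, aeval_X, map_ofNat]
      push_cast
      field_simp
    · simp only [map_add, map_sub, map_mul, map_neg, map_one, map_pow, aeval_X, map_ofNat]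
      push_cast
      field_simp
  · rintro s u hsu r hr hrS ⟨h1, h2⟩
    have hrp : Prime (r : ℤ) := Nat.prime_iff_prime_int.1 hr
    have h2' := hrp.dvd_of_dvd_pow ((dvd_neg).1 h2)
    have h2r : ¬ (r : ℤ) ∣ 2 := by
      intro h
      have := eq_of_dvd hr {2} (by simp [Nat.prime_two]) (n := 2) (by simp) (by exact_mod_cast h)
      rw [Multiset.mem_singleton] at this
      exact hrS (this ▸ hS2)
    have h3r : ¬ (r : ℤ) ∣ 3 := by
      intro h
      have := eq_of_dvd hr {3} (by simp [Nat.prime_three]) (n := 3) (by simp) (by exact_mod_cast h)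
      rw [Multiset.mem_singleton] at this
      exact hrS (this ▸ hS3)
    have h3 : (r : ℤ) ∣ 2 ^ 2 * 3 ^ 3 * (s * u * (s ^ 4 - u ^ 4)) ^ 4 := by
      have : 2 ^ 2 * 3 ^ 3 * (s * u * (s ^ 4 - u ^ 4)) ^ 4 =
        -((s ^ 12 - 33 * s ^ 8 * u ^ 4 - 33 * s ^ 4 * u ^ 8 + u ^ 12) ^ 2 +
          -(s ^ 8 + 14 * s ^ 4 * u ^ 4 + u ^ 8) ^ 3) := by ring
      rw [this, dvd_neg]
      exact dvd_add h1 h2
    have h4 : (r : ℤ) ∣ s * u * (s ^ 4 - u ^ 4) := by
      rcases hrp.dvd_mul.1 h3 with h | h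
      · exfalso
        rcases hrp.dvd_mul.1 h with h | h
        · exact h2r (hrp.dvd_of_dvd_pow h)
        · exact h3r (hrp.dvd_of_dvd_pow h)
      · exact hrp.dvd_of_dvd_pow h
    rcases hrp.dvd_mul.1 h4 with h | h
    · rcases hrp.dvd_mul.1 h with h | h
      · have : (r : ℤ) ∣ u ^ 8 := by
          have e : u ^ 8 = (s ^ 8 + 14 * s ^ 4 * u ^ 4 + u ^ 8) -
              s * (s ^ 7 + 14 * s ^ 3 * u ^ 4) := by ring
          rw [e]; exact dvd_sub h2' (h.mul_right _)
        exact not_dvd_of_coprime hr hsu h (hrp.dvd_of_dvd_pow this)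
      · have : (r : ℤ) ∣ s ^ 8 := by
          have e : s ^ 8 = (s ^ 8 + 14 * s ^ 4 * u ^ 4 + u ^ 8) -
              u * (14 * s ^ 4 * u ^ 3 + u ^ 7) := by ring
          rw [e]; exact dvd_sub h2' (h.mul_right _)
        exact not_dvd_of_coprime hr hsu (hrp.dvd_of_dvd_pow this) h
    · have h5 : (r : ℤ) ∣ 2 ^ 4 * s ^ 8 := by
        have e : 2 ^ 4 * s ^ 8 = (s ^ 8 + 14 * s ^ 4 * u ^ 4 + u ^ 8) +
            (s ^ 4 - u ^ 4) * (15 * s ^ 4 + u ^ 4) := by ring
        rw [e]; exact dvd_add h2' (h.mul_right _)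
      have hs : (r : ℤ) ∣ s := by
        rcases hrp.dvd_mul.1 h5 with h | h
        · exact absurd (hrp.dvd_of_dvd_pow h) h2r
        · exact hrp.dvd_of_dvd_pow h
      have hu : (r : ℤ) ∣ u := by
        have : (r : ℤ) ∣ u ^ 4 := by
          have e : u ^ 4 = s * s ^ 3 - (s ^ 4 - u ^ 4) := by ring
          rw [e]; exact dvd_sub (hs.mul_right _) h
        exact hrp.dvd_of_dvd_pow this
      exact not_dvd_of_coprime hr hsu hs hu
  · intro s u h1 h2 h3 r hr hrS
    have e : (s ^ 12 - 33 * s ^ 8 * u ^ 4 - 33 * s ^ 4 * u ^ 8 + u ^ 12) ^ 2 +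
          -(s ^ 8 + 14 * s ^ 4 * u ^ 4 + u ^ 8) ^ 3 = (-108) * (s * u * (s ^ 4 - u ^ 4)) ^ 4 := by
      ring
    simp only [e] at h3 ⊢
    have h108 : ¬ (r : ℤ) ∣ -108 := by
      intro h
      rw [dvd_neg] at h
      have := eq_of_dvd hr {2, 2, 3, 3, 3} (by simp [Nat.prime_two, Nat.prime_three]) (n := 108)
        (by simp) (by exact_mod_cast h)
      simp only [Multiset.insert_eq_cons, Multiset.mem_cons, Multiset.mem_singleton] at this
      rcases this with h | h | h | h | h <;> subst h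
      · exact hrS hS2
      · exact hrS hS2
      · exact hrS hS3
      · exact hrS hS3
      · exact hrS hS3
    refine ⟨dvd_val_pow r 2 hr _ h1, ?_, dvd_val_mul_pow r 4 hr _ _ h108 h3⟩
    rw [padicValInt_neg]
    exact dvd_val_pow r 3 hr _ (neg_ne_zero.1 h2)

end Pool.Agent.L5helper92.SS
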