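import Mathlib
import Pool.Agent.L5helper92.SS.Cases

/-!
# The icosahedral case

The icosahedral function has only two rational cusps. We compose it with the function
`(t ^ 2 - 1) / (2 t)`, which is ramified over the two cusps `± i` only, and maps `0, ∞, 1, -1` to the
rational cusps.
-/

set_option autoImplicit false

namespace Pool.Agent.L5helper92.SS

open Polynomial Finset

section forms

variable {R : Type*} [CommRing R]

def icoW (x y : R) : R := x ^ 10 + 11 * x ^ 5 * y ^ 5 - y ^ 10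

def icoH (x y : R) : R :=
  -(x ^ 20 + y ^ 20) + 228 * (x ^ 15 * y ^ 5 - x ^ 5 * y ^ 15) - 494 * x ^ 10 * y ^ 10

def icoQ (x y : R) : R :=
  x ^ 28 - x ^ 26 * y ^ 2 + x ^ 24 * y ^ 4 + 522 * x ^ 23 * y ^ 5 - x ^ 22 * y ^ 6
    - 522 * x ^ 21 * y ^ 7 + x ^ 20 * y ^ 8 + 522 * x ^ 19 * y ^ 9 - 10006 * x ^ 18 * y ^ 10
    - 522 * x ^ 17 * y ^ 11 + 10006 * x ^ 16 * y ^ 12 + 522 * x ^ 15 * y ^ 13
    - 10006 * x ^ 14 * y ^ 14 - 522 * x ^ 13 * y ^ 15 + 10006 * x ^ 12 * y ^ 16
    + 522 * x ^ 11 * y ^ 17 - 10006 * x ^ 10 * y ^ 18 - 522 * x ^ 9 * y ^ 19 + x ^ 8 * y ^ 20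
    + 522 * x ^ 7 * y ^ 21 - x ^ 6 * y ^ 22 - 522 * x ^ 5 * y ^ 23 + x ^ 4 * y ^ 24
    - x ^ 2 * y ^ 26 + y ^ 28

def icoT (x y : R) : R := (x ^ 2 + y ^ 2) * icoQ x y

theorem icoT_eq (x y : R) : icoT x y = (x ^ 30 + y ^ 30) + 522 * (x ^ 25 * y ^ 5 - x ^ 5 * y ^ 25)
    - 10005 * (x ^ 20 * y ^ 10 + x ^ 10 * y ^ 20) := by
  unfold icoT icoQ; ring

theorem ico_rel (x y : R) :
    icoT x y ^ 2 + icoH x y ^ 3 = 1728 * (x * y * icoW x y) ^ 5 := by
  rw [icoT_eq]; unfold icoH icoW; ring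

theorem icoT_smul (c x y : R) : icoT (c * x) (c * y) = c ^ 30 * icoT x y := by
  rw [icoT_eq, icoT_eq]; ring

theorem icoH_smul (c x y : R) : icoH (c * x) (c * y) = c ^ 20 * icoH x y := by
  unfold icoH; ring

theorem icoH_eq (x y : R) : icoH x y = -icoW x y ^ 2 + 250 * icoW x y * (x ^ 5 * y ^ 5) -
    3125 * (x ^ 5 * y ^ 5) ^ 2 := by
  unfold icoH icoW; ring

end forms

theorem aeval_icoT {A : Type} [CommRing A] [Algebra ℤ A] (z : A) :
    aeval z (icoT (X ^ 2 - 1 : ℤ[X]) (2 * X)) = icoT (z ^ 2 - 1) (2 * z) := by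
  rw [icoT_eq, icoT_eq]
  simp only [map_mul, map_add, map_sub, map_one, map_pow, aeval_X, map_ofNat]

theorem aeval_icoH {A : Type} [CommRing A] [Algebra ℤ A] (z : A) :
    aeval z (icoH (X ^ 2 - 1 : ℤ[X]) (2 * X)) = icoH (z ^ 2 - 1) (2 * z) := by
  unfold icoH
  simp only [map_mul, map_add, map_sub, map_neg, map_one, map_pow, aeval_X, map_ofNat]

theorem aeval_icoW {A : Type} [CommRing A] [Algebra ℤ A] (z : A) :
    aeval z (icoW (X ^ 2 - 1 : ℤ[X]) (2 * X)) = icoW (z ^ 2 - 1) (2 * z) := by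
  unfold icoW
  simp only [map_mul, map_add, map_sub, map_one, map_pow, aeval_X, map_ofNat]

theorem aeval_icoQ {A : Type} [CommRing A] [Algebra ℤ A] (z : A) :
    aeval z (icoQ (X ^ 2 - 1 : ℤ[X]) (2 * X)) = icoQ (z ^ 2 - 1) (2 * z) := by
  unfold icoQ
  simp only [map_mul, map_add, map_sub, map_one, map_pow, aeval_X, map_ofNat]

theorem natDegree_icoT : (icoT (X ^ 2 - 1 : ℤ[X]) (2 * X)).natDegree ≤ 60 := by
  rw [icoT_eq]; compute_degree

theorem natDegree_icoQ : (icoQ (X ^ 2 - 1 : ℤ[X]) (2 * X)).natDegree ≤ 56 := by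
  unfold icoQ; compute_degree

theorem natDegree_icoW : (icoW (X ^ 2 - 1 : ℤ[X]) (2 * X)).natDegree ≤ 20 := by
  unfold icoW; compute_degree

theorem natDegree_icoH : (icoH (X ^ 2 - 1 : ℤ[X]) (2 * X)).natDegree ≤ 40 := by
  unfold icoH; compute_degree

theorem natDegree_icoH' : (icoH (X ^ 2 - 1 : ℤ[X]) (2 * X)).natDegree = 40 := by
  have h1 : ((X ^ 2 - 1 : ℤ[X]) ^ 20).natDegree = 40 := by
    have : (X ^ 2 - 1 : ℤ[X]).natDegree = 2 := natDegree_X_pow_sub_C (r := (1 : ℤ))
    rw [natDegree_pow, this]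
  have h2 : (icoH (X ^ 2 - 1 : ℤ[X]) (2 * X) + (X ^ 2 - 1) ^ 20).natDegree ≤ 39 := by
    unfold icoH
    have : (-((X ^ 2 - 1 : ℤ[X]) ^ 20 + (2 * X) ^ 20) + 228 * ((X ^ 2 - 1) ^ 15 * (2 * X) ^ 5 -
        (X ^ 2 - 1) ^ 5 * (2 * X) ^ 15) - 494 * (X ^ 2 - 1) ^ 10 * (2 * X) ^ 10 +
        (X ^ 2 - 1) ^ 20) = -(2 * X) ^ 20 + 228 * ((X ^ 2 - 1) ^ 15 * (2 * X) ^ 5 -
        (X ^ 2 - 1) ^ 5 * (2 * X) ^ 15) - 494 * (X ^ 2 - 1) ^ 10 * (2 * X) ^ 10 := by ring
    rw [this]
    compute_degree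
    all_goals norm_num
  have h3 : icoH (X ^ 2 - 1 : ℤ[X]) (2 * X) = -(X ^ 2 - 1) ^ 20 +
      (icoH (X ^ 2 - 1 : ℤ[X]) (2 * X) + (X ^ 2 - 1) ^ 20) := by ring
  rw [h3, natDegree_add_eq_left_of_natDegree_lt, natDegree_neg, h1]
  rw [natDegree_neg, h1]
  omega

theorem no_common (z : ℂ) (h1 : icoT (z ^ 2 - 1) (2 * z) = 0)
    (h2 : icoH (z ^ 2 - 1) (2 * z) = 0) : False := by
  have hrel := ico_rel (z ^ 2 - 1) (2 * z)
  rw [h1, h2] at hrel
  have h3 : (z ^ 2 - 1) * (2 * z) * icoW (z ^ 2 - 1) (2 * z) = 0 := by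
    have : (1728 : ℂ) * ((z ^ 2 - 1) * (2 * z) * icoW (z ^ 2 - 1) (2 * z)) ^ 5 = 0 := by
      rw [← hrel]; ring
    rcases mul_eq_zero.1 this with h | h
    · norm_num at h
    · exact pow_eq_zero_iff (by norm_num) |>.1 h
  -- not both coordinates vanish
  have hboth : z ^ 2 - 1 = 0 → 2 * z = 0 → False := by
    intro e1 e2
    have hz : z = 0 := by
      rcases mul_eq_zero.1 e2 with h | h
      · norm_num at h
      · exact h
    rw [hz] at e1
    norm_num at e1
  set x := z ^ 2 - 1 with hx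
  set y := 2 * z with hy
  have hx0 : x = 0 → False := by
    intro h
    rw [h] at h2
    unfold icoH at h2
    have : y ^ 20 = 0 := by linear_combination -h2
    exact hboth h (pow_eq_zero_iff (by norm_num) |>.1 this)
  have hy0 : y = 0 → False := by
    intro h
    rw [h] at h2
    unfold icoH at h2
    have : x ^ 20 = 0 := by linear_combination -h2
    exact hboth (pow_eq_zero_iff (by norm_num) |>.1 this) h
  rcases mul_eq_zero.1 h3 with h | h
  · rcases mul_eq_zero.1 h with h | h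
    · exact hx0 h
    · exact hy0 h
  · rw [icoH_eq, h] at h2
    have : (x ^ 5 * y ^ 5) ^ 2 = 0 := by linear_combination (-1 / 3125) * h2
    rw [pow_eq_zero_iff (by norm_num), mul_eq_zero, pow_eq_zero_iff (by norm_num),
      pow_eq_zero_iff (by norm_num)] at this
    rcases this with h | h
    · exact hx0 h
    · exact hy0 h

/-- **Icosahedral case.** -/
theorem good_icosahedral (S : Finset ℕ) (hS2 : 2 ∈ S) (hS3 : 3 ∈ S) (hS5 : 5 ∈ S) :
    Good S 2 3 5 := by
  have hAB := ico_rel (X ^ 2 - 1 : ℤ[X]) (2 * X)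
  have hne : ∀ f : ℤ[X], aeval (2 : ℤ) f ≠ 0 → f ≠ 0 := by
    rintro f h rfl; exact h (by simp)
  refine ⟨120, icoT (X ^ 2 - 1) (2 * X) ^ 2, icoH (X ^ 2 - 1) (2 * X) ^ 3,
    (X + 1) * (X ^ 2 + 1) * icoW (X ^ 2 - 1) (2 * X) * icoH (X ^ 2 - 1) (2 * X) *
      icoQ (X ^ 2 - 1) (2 * X),
    fun s u => icoT (s ^ 2 - u ^ 2) (2 * s * u) ^ 2,
    fun s u => icoH (s ^ 2 - u ^ 2) (2 * s * u) ^ 3, ?_, ?_, ?_, ?_, ?_, ?_, ?_, ?_, ?_, ?_,
    ?_, ?_⟩
  · exact natDegree_pow_le.trans (by have := natDegree_icoT; omega)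
  · exact natDegree_pow_le.trans (by have := natDegree_icoH; omega)
  · refine (natDegree_add_le _ _).trans (max_le ?_ ?_)
    · exact natDegree_pow_le.trans (by have := natDegree_icoT; omega)
    · exact natDegree_pow_le.trans (by have := natDegree_icoH; omega)
  · right
    rw [natDegree_pow, natDegree_icoH']
  · intro z
    by_contra hcon
    push Not at hcon
    obtain ⟨h1, h2⟩ := hcon
    rw [map_pow, aeval_icoT, pow_eq_zero_iff (by norm_num)] at h1
    rw [map_pow, aeval_icoH, pow_eq_zero_iff (by norm_num)] at h2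
    exact no_common z h1 h2
  · apply hne
    rw [map_mul, map_mul, map_mul, map_mul, aeval_icoW, aeval_icoH, aeval_icoQ]
    simp only [map_add, map_one, map_pow, aeval_X]
    unfold icoW icoH icoQ
    norm_num
  · have h1 : (X + 1 : ℤ[X]).natDegree ≤ 1 := by compute_degree
    have h2 : (X ^ 2 + 1 : ℤ[X]).natDegree ≤ 2 := by compute_degree
    have h3 := natDegree_icoW
    have h4 := natDegree_icoH
    have h5 := natDegree_icoQ
    have e1 := natDegree_mul_le (p := (X + 1 : ℤ[X])) (q := X ^ 2 + 1)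
    have e2 := natDegree_mul_le (p := ((X + 1) * (X ^ 2 + 1) : ℤ[X]))
      (q := icoW (X ^ 2 - 1) (2 * X))
    have e3 := natDegree_mul_le (p := ((X + 1) * (X ^ 2 + 1) * icoW (X ^ 2 - 1) (2 * X) : ℤ[X]))
      (q := icoH (X ^ 2 - 1) (2 * X))
    have e4 := natDegree_mul_le (p := ((X + 1) * (X ^ 2 + 1) * icoW (X ^ 2 - 1) (2 * X) *
      icoH (X ^ 2 - 1) (2 * X) : ℤ[X])) (q := icoQ (X ^ 2 - 1) (2 * X))
    omega
  · rw [hAB]
    apply hne
    rw [map_mul, map_mul, map_mul, map_pow, map_pow, map_pow, map_mul, map_mul, aeval_icoT,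
      aeval_icoH, aeval_icoW]
    simp only [map_sub, map_mul, map_one, map_pow, aeval_X, map_ofNat]
    rw [icoT_eq]
    unfold icoW icoH
    norm_num
  · intro z hz
    rw [hAB] at hz
    rw [map_mul, map_mul, map_mul, map_pow, map_pow, map_pow, map_mul, map_mul, aeval_icoT,
      aeval_icoH, aeval_icoW] at hz
    rw [map_mul, map_mul, map_mul, map_mul, aeval_icoW, aeval_icoH, aeval_icoQ]
    simp only [map_add, map_sub, map_mul, map_one, map_pow, aeval_X, map_ofNat] at hz ⊢
    rw [mul_eq_zero, mul_eq_zero, mul_eq_zero, pow_eq_zero_iff (by norm_num),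
      pow_eq_zero_iff (by norm_num), pow_eq_zero_iff (by norm_num), mul_eq_zero,
      mul_eq_zero] at hz
    rcases hz with (h | h) | h | (h | h) | h
    · unfold icoT at h
      rcases mul_eq_zero.1 h with h | h
      · right; right
        have h1 : (z ^ 2 + 1) ^ 2 = 0 := by linear_combination h
        rw [pow_eq_zero_iff two_ne_zero] at h1
        rw [h1]; ring
      · right; right; rw [h]; ring
    · right; right; rw [h]; ring
    · norm_num at h
    · have h1 : (z - 1) * (z + 1) = 0 := by linear_combination h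
      rcases mul_eq_zero.1 h1 with h | h
      · right; left; linear_combination h
      · right; right; rw [h]; ring
    · left
      rcases mul_eq_zero.1 h with h | h
      · norm_num at h
      · exact h
    · right; right; rw [h]; ring
  · intro s u hu
    have huq : (u : ℚ) ≠ 0 := by exact_mod_cast hu
    have ex : (s : ℚ) ^ 2 - (u : ℚ) ^ 2 = (u : ℚ) ^ 2 * (((s : ℚ) / u) ^ 2 - 1) := by
      rw [div_pow]; field_simp
    have ey : 2 * (s : ℚ) * (u : ℚ) = (u : ℚ) ^ 2 * (2 * ((s : ℚ) / u)) := by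
      field_simp
    constructor
    · have e1 : ((icoT (s ^ 2 - u ^ 2) (2 * s * u) ^ 2 : ℤ) : ℚ) =
          icoT ((s : ℚ) ^ 2 - (u : ℚ) ^ 2) (2 * (s : ℚ) * (u : ℚ)) ^ 2 := by
        rw [icoT_eq, icoT_eq]; push_cast; ring
      rw [e1, ex, ey, icoT_smul, map_pow, aeval_icoT]
      ring
    · have e1 : ((icoH (s ^ 2 - u ^ 2) (2 * s * u) ^ 3 : ℤ) : ℚ) =
          icoH ((s : ℚ) ^ 2 - (u : ℚ) ^ 2) (2 * (s : ℚ) * (u : ℚ)) ^ 3 := by
        unfold icoH; push_cast; ring
      rw [e1, ex, ey, icoH_smul, map_pow, aeval_icoH]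
      ring
  · rintro s u hsu r hr hrS ⟨h1, h2⟩
    have hrp : Prime (r : ℤ) := Nat.prime_iff_prime_int.1 hr
    have h1' := hrp.dvd_of_dvd_pow h1
    have h2' := hrp.dvd_of_dvd_pow h2
    have h2r : ¬ (r : ℤ) ∣ 2 := by
      intro h
      have := eq_of_dvd hr {2} (by simp [Nat.prime_two]) (n := 2) (by simp) (by exact_mod_cast h)
      rw [Multiset.mem_singleton] at this
      exact hrS (this ▸ hS2)
    have h3r : ¬ (r : ℤ) ∣ 3 := by
      intro h
      have := eq_of_dvd hr {3} (by simp [Nat.prime_three]) (n := 3) (by simp) (by exact_mod_cast h)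
      rw [Multiset.mem_singleton] at this
      exact hrS (this ▸ hS3)
    have h5r : ¬ (r : ℤ) ∣ 5 := by
      intro h
      have := eq_of_dvd hr {5} (by simp [Nat.prime_five]) (n := 5) (by simp) (by exact_mod_cast h)
      rw [Multiset.mem_singleton] at this
      exact hrS (this ▸ hS5)
    set x := s ^ 2 - u ^ 2 with hx
    set y := 2 * s * u with hy
    -- not both coordinates are divisible
    have hboth : (r : ℤ) ∣ x → (r : ℤ) ∣ y → False := by
      intro e1 e2
      rw [hy] at e2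
      rcases hrp.dvd_mul.1 e2 with h | h
      · have hs := (hrp.dvd_mul.1 h).resolve_left h2r
        have : (r : ℤ) ∣ u ^ 2 := by
          have e : u ^ 2 = s * s - x := by rw [hx]; ring
          rw [e]; exact dvd_sub (hs.mul_right _) e1
        exact not_dvd_of_coprime hr hsu hs (hrp.dvd_of_dvd_pow this)
      · have : (r : ℤ) ∣ s ^ 2 := by
          have e : s ^ 2 = u * u + x := by rw [hx]; ring
          rw [e]; exact dvd_add (h.mul_right _) e1
        exact not_dvd_of_coprime hr hsu (hrp.dvd_of_dvd_pow this) h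
    have hx0 : (r : ℤ) ∣ x → False := by
      intro h
      have : (r : ℤ) ∣ y ^ 20 := by
        have e : y ^ 20 = x * (-x ^ 19 + 228 * (x ^ 14 * y ^ 5 - x ^ 4 * y ^ 15) -
            494 * x ^ 9 * y ^ 10) - icoH x y := by unfold icoH; ring
        rw [e]; exact dvd_sub (h.mul_right _) h2'
      exact hboth h (hrp.dvd_of_dvd_pow this)
    have hy0 : (r : ℤ) ∣ y → False := by
      intro h
      have : (r : ℤ) ∣ x ^ 20 := by
        have e : x ^ 20 = y * (-y ^ 19 + 228 * (x ^ 15 * y ^ 4 - x ^ 5 * y ^ 14) -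
            494 * x ^ 10 * y ^ 9) - icoH x y := by unfold icoH; ring
        rw [e]; exact dvd_sub (h.mul_right _) h2'
      exact hboth (hrp.dvd_of_dvd_pow this) h
    have h3 : (r : ℤ) ∣ 2 ^ 6 * 3 ^ 3 * (x * y * icoW x y) ^ 5 := by
      have e : 2 ^ 6 * 3 ^ 3 * (x * y * icoW x y) ^ 5 = icoT x y ^ 2 + icoH x y ^ 3 := by
        rw [ico_rel]; norm_num
      rw [e]; exact dvd_add h1 h2
    have h4 : (r : ℤ) ∣ x * y * icoW x y := by
      rcases hrp.dvd_mul.1 h3 with h | h
      · exfalso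
        rcases hrp.dvd_mul.1 h with h | h
        · exact h2r (hrp.dvd_of_dvd_pow h)
        · exact h3r (hrp.dvd_of_dvd_pow h)
      · exact hrp.dvd_of_dvd_pow h
    rcases hrp.dvd_mul.1 h4 with h | h
    · rcases hrp.dvd_mul.1 h with h | h
      · exact hx0 h
      · exact hy0 h
    · have h5 : (r : ℤ) ∣ 5 ^ 5 * (x ^ 5 * y ^ 5) ^ 2 := by
        have e : 5 ^ 5 * (x ^ 5 * y ^ 5) ^ 2 = icoW x y * (-icoW x y + 250 * (x ^ 5 * y ^ 5)) -
            icoH x y := by rw [icoH_eq]; ring
        rw [e]; exact dvd_sub (h.mul_right _) h2'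
      rcases hrp.dvd_mul.1 h5 with h | h
      · exact h5r (hrp.dvd_of_dvd_pow h)
      · rcases hrp.dvd_mul.1 (hrp.dvd_of_dvd_pow h) with h | h
        · exact hx0 (hrp.dvd_of_dvd_pow h)
        · exact hy0 (hrp.dvd_of_dvd_pow h)
  · intro s u h1 h2 h3 r hr hrS
    have e := ico_rel (s ^ 2 - u ^ 2) (2 * s * u)
    simp only at h3 ⊢
    rw [e] at h3 ⊢
    have h1728 : ¬ (r : ℤ) ∣ 1728 := by
      intro h
      have := eq_of_dvd hr {2, 2, 2, 2, 2, 2, 3, 3, 3} (by simp [Nat.prime_two, Nat.prime_three])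
        (n := 1728) (by simp) (by exact_mod_cast h)
      simp only [Multiset.insert_eq_cons, Multiset.mem_cons, Multiset.mem_singleton] at this
      have hr23 : r = 2 ∨ r = 3 := by tauto
      rcases hr23 with h | h
      · exact hrS (h ▸ hS2)
      · exact hrS (h ▸ hS3)
    exact ⟨dvd_val_pow r 2 hr _ h1, dvd_val_pow r 3 hr _ h2, dvd_val_mul_pow r 5 hr _ _ h1728 h3⟩

/-- the spherical orders -/
theorem good_spherical (S : Finset ℕ) (a b c : ℕ) (ha : 1 ≤ a) (hb : 1 ≤ b) (hc : 1 ≤ c)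
    (hsph : a * b * c < a * b + b * c + c * a) (hS : ∀ q : ℕ, q.Prime → q ∣ a * b * c → q ∈ S) :
    Good S a b c := by
  -- the sorted case
  have sorted : ∀ a b c : ℕ, 1 ≤ a → 1 ≤ b → 1 ≤ c → a * b * c < a * b + b * c + c * a →
      (∀ q : ℕ, q.Prime → q ∣ a * b * c → q ∈ S) → a ≤ b → b ≤ c → Good S a b c := by
    intro a b c ha hb hc hsph hS hab hbc
    rcases Nat.lt_or_ge a 2 with ha2 | ha2
    · obtain rfl : a = 1 := by omega
      exact good_cyclic S b c hb hc
    · have ha3 : a < 3 := by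
        by_contra h
        push Not at h
        have h1 : 3 * (b * c) ≤ a * b * c := by
          calc 3 * (b * c) ≤ a * (b * c) := Nat.mul_le_mul_right _ h
            _ = a * b * c := by ring
        have h2 : a * b ≤ b * c := by
          calc a * b ≤ c * b := Nat.mul_le_mul_right _ (hab.trans hbc)
            _ = b * c := by ring
        have h3 : c * a ≤ b * c := by
          calc c * a ≤ c * b := Nat.mul_le_mul_left _ hab
            _ = b * c := by ring
        omega
      obtain rfl : a = 2 := by omega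
      have hS2 : 2 ∈ S := hS 2 Nat.prime_two (by rw [mul_assoc]; exact dvd_mul_right _ _)
      rcases Nat.lt_or_ge b 3 with hb3 | hb3
      · obtain rfl : b = 2 := by omega
        exact good_dihedral S c hc hS2
      · have hb4 : b < 4 := by
          by_contra h
          push Not at h
          have h1 : 4 * c ≤ b * c := Nat.mul_le_mul_right _ h
          have h2 : 2 * b * c = 2 * (b * c) := by ring
          rw [h2] at hsph
          omega
        obtain rfl : b = 3 := by omega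
        have hS3 : 3 ∈ S := hS 3 Nat.prime_three ⟨2 * c, by ring⟩
        have hc6 : c < 6 := by omega
        have hc345 : c = 3 ∨ c = 4 ∨ c = 5 := by omega
        rcases hc345 with rfl | rfl | rfl
        · exact good_tetrahedral S hS2 hS3
        · exact good_octahedral S hS2 hS3
        · exact good_icosahedral S hS2 hS3 (hS 5 Nat.prime_five (by norm_num))
  have e1 : a * b * c = b * a * c := by ring
  have e2 : a * b * c = b * c * a := by ring
  have e3 : a * b * c = c * a * b := by ring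
  have e4 : a * b * c = a * c * b := by ring
  have e5 : a * b * c = c * b * a := by ring
  have m1 : a * b = b * a := mul_comm _ _
  have m2 : b * c = c * b := mul_comm _ _
  have m3 : c * a = a * c := mul_comm _ _
  rcases le_total a b with hab | hab
  · rcases le_total b c with hbc | hbc
    · exact sorted a b c ha hb hc hsph hS hab hbc
    · rcases le_total a c with hac | hac
      · -- a ≤ c ≤ b
        have := sorted a c b ha hc hb (by omega) (by rw [← e4]; exact hS) hac hbc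
        exact this.swap.rot
      · -- c ≤ a ≤ b
        have := sorted c a b hc ha hb (by omega) (by rw [← e3]; exact hS) hac hab
        exact this.rot
  · rcases le_total a c with hac | hac
    · -- b ≤ a ≤ c
      have := sorted b a c hb ha hc (by omega) (by rw [← e1]; exact hS) hab hac
      exact this.swap
    · rcases le_total b c with hbc | hbc
      · -- b ≤ c ≤ a
        have := sorted b c a hb hc ha (by omega) (by rw [← e2]; exact hS) hbc hac
        exact this.rot.rot
      · -- c ≤ b ≤ a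
        have := sorted c b a hc hb ha (by omega) (by rw [← e5]; exact hS) hbc hab
        exact this.swap.rot.rot

end Pool.Agent.L5helper92.SS
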